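import Pool.Agent.H51.EM.Targets

/-! Board `em_modules`, row FOUR: good approximations at the levels `J, .., J ^ 4` do not exist. -/

set_option autoImplicit false

namespace Pool.Agent.H64.EM.FOUR

open Pool.Agent.H51.EM

theorem pf_FOUR (hFTF : T_FTF) (hFIN : T_FIN) : T_FOUR := by
  intro O X0 hD hF π
  have hr : (0 : ℝ) < (π.r : ℝ) ^ 2 := by
    have : (0 : ℝ) < π.r := by exact_mod_cast π.hr
    positivity
  obtain ⟨J1, h1⟩ := hFTF O X0 π (1 / 10 ^ 20) (by norm_num)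
  obtain ⟨Jb, hb⟩ := hFIN ((π.r : ℝ) ^ 2) hr
  refine ⟨max (max J1 Jb) 2, le_max_right _ _, fun J hJ u v hv => ?_⟩
  have hJ1 : J1 ≤ J := le_trans (le_trans (le_max_left _ _) (le_max_left _ _)) hJ
  have hJb : Jb ≤ J := le_trans (le_trans (le_max_right _ _) (le_max_left _ _)) hJ
  exact hb O X0 hD hF J hJb fun j hj hj' => h1 j (hJ1.trans hj) u v (hv j hj hj')

end Pool.Agent.H64.EM.FOUR
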