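import Pool.Agent.H51.EM.Targets

/-! Board `em_modules`, row UPP: size of the minors near `X0` (after `H1/EI/UPP.lean`). -/

set_option autoImplicit false

open Polynomial Finset

namespace Pool.Agent.H64.EM.UPP

open Pool.Agent.H25.EE (Idx Ix mlt nd s0 s1 hn EX exo gt)
open Pool.Agent.H51.EI (ev phq)
open Pool.Agent.H51.EM

private theorem two_pow_fact (L : ℕ) :
    (2 : ℝ) ^ L * (L.factorial : ℝ) ^ 2 ≤ Real.exp ((L : ℝ) + 2 * (L : ℝ) ^ 2) := by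
  have h1 : (2 : ℝ) ^ L ≤ Real.exp (L : ℝ) := by
    have h2 : (2 : ℝ) ≤ Real.exp 1 := by
      have := Real.add_one_le_exp (1 : ℝ)
      linarith
    calc (2 : ℝ) ^ L ≤ (Real.exp 1) ^ L := by gcongr
      _ = Real.exp L := by rw [← Real.exp_nat_mul]; simp
  have h3 : (L.factorial : ℝ) ≤ Real.exp ((L : ℝ) ^ 2) := by
    have h4 : (L.factorial : ℝ) ≤ (L : ℝ) ^ L := by exact_mod_cast Nat.factorial_le_pow L
    have h5 : (L : ℝ) ≤ Real.exp (L : ℝ) := by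
      have := Real.add_one_le_exp (L : ℝ)
      linarith
    calc (L.factorial : ℝ) ≤ (L : ℝ) ^ L := h4
      _ ≤ (Real.exp (L : ℝ)) ^ L := by gcongr
      _ = Real.exp ((L : ℝ) ^ 2) := by rw [← Real.exp_nat_mul]; ring_nf
  calc (2 : ℝ) ^ L * (L.factorial : ℝ) ^ 2
      ≤ Real.exp (L : ℝ) * (Real.exp ((L : ℝ) ^ 2)) ^ 2 := by gcongr
    _ = Real.exp ((L : ℝ) + 2 * (L : ℝ) ^ 2) := by
        rw [← Real.exp_nat_mul, ← Real.exp_add]
        norm_num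

private theorem num_UPP (j l L P v0 CD CB C1 ε : ℝ) (hj : 1 ≤ j) (hl : 0 < l) (hlj : l ≤ j)
    (hL : 0 ≤ L) (hLP : L ≤ P) (hP : 2 * P ≤ j ^ 4) (hPL : P - 10 * j ^ 2 ≤ L) (hv : 0 ≤ v0)
    (hv' : v0 ≤ 2 * P * l) (hCD : 0 ≤ CD) (hCB : 0 ≤ CB)
    (hε : 14 + CD + 2 * CB + |C1| ≤ ε * l) :
    L + 2 * L ^ 2 + (P - L) * v0 + (CD * j ^ 2 * l + 1) * L + 2 * CB * j ^ 2 * l * L +
      C1 * j ^ 8 ≤ ε * j ^ 8 * l := by
  have j4 : 1 ≤ j ^ 4 := one_le_pow₀ hj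
  have hPj : P ≤ j ^ 4 := by linarith
  have hLj : L ≤ j ^ 4 := hLP.trans hPj
  have h48 : j ^ 4 ≤ j ^ 8 := pow_le_pow_right₀ hj (by norm_num)
  have h78 : j ^ 7 ≤ j ^ 8 := pow_le_pow_right₀ hj (by norm_num)
  have e1 : L ≤ j ^ 8 := hLj.trans h48
  have e2 : 2 * L ^ 2 ≤ 2 * j ^ 8 := by
    have : L ^ 2 ≤ (j ^ 4) ^ 2 := by gcongr
    have h : (j ^ 4) ^ 2 = j ^ 8 := by ring
    linarith
  have e3 : (P - L) * v0 ≤ 10 * j ^ 8 := by
    have h1 : (P - L) * v0 ≤ (10 * j ^ 2) * (2 * P * l) := by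
      apply mul_le_mul _ hv' hv (by positivity)
      linarith
    have h2 : (10 * j ^ 2) * (2 * P * l) ≤ (10 * j ^ 2) * (j ^ 4 * j) := by
      apply mul_le_mul_of_nonneg_left _ (by positivity)
      exact mul_le_mul hP hlj hl.le (by positivity)
    have h4 : (10 * j ^ 2) * (j ^ 4 * j) = 10 * j ^ 7 := by ring
    linarith
  have e4 : CD * j ^ 2 * l * L ≤ CD * j ^ 8 := by
    have h1 : CD * j ^ 2 * l * L ≤ CD * j ^ 2 * j * j ^ 4 := by gcongr
    have h2 : CD * j ^ 2 * j * j ^ 4 = CD * j ^ 7 := by ring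
    have h3 : CD * j ^ 7 ≤ CD * j ^ 8 := by gcongr
    linarith
  have e4' : 2 * CB * j ^ 2 * l * L ≤ 2 * CB * j ^ 8 := by
    have h1 : 2 * CB * j ^ 2 * l * L ≤ 2 * CB * j ^ 2 * j * j ^ 4 := by gcongr
    have h2 : 2 * CB * j ^ 2 * j * j ^ 4 = 2 * CB * j ^ 7 := by ring
    have h3 : 2 * CB * j ^ 7 ≤ 2 * CB * j ^ 8 := by gcongr
    linarith
  have e5 : C1 * j ^ 8 ≤ |C1| * j ^ 8 := by
    apply mul_le_mul_of_nonneg_right (le_abs_self _) (by positivity)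
  have e6 : (14 + CD + 2 * CB + |C1|) * j ^ 8 ≤ (ε * l) * j ^ 8 :=
    mul_le_mul_of_nonneg_right hε (by positivity)
  have e7 : (CD * j ^ 2 * l + 1) * L = CD * j ^ 2 * l * L + L := by ring
  have e8 : (14 + CD + 2 * CB + |C1|) * j ^ 8 =
      14 * j ^ 8 + CD * j ^ 8 + 2 * CB * j ^ 8 + |C1| * j ^ 8 := by ring
  have e9 : (ε * l) * j ^ 8 = ε * j ^ 8 * l := by ring
  rw [e7, ← e9]
  rw [e8] at e6
  linarith

private theorem amgm_UPP (l m v0 : ℝ) (hl : 0 < l) : m * v0 ≤ m ^ 2 * l + v0 ^ 2 / (4 * l) := by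
  have h : m ^ 2 * l + v0 ^ 2 / (4 * l) - m * v0 = (2 * l * m - v0) ^ 2 / (4 * l) := by
    field_simp
    ring
  have h2 : 0 ≤ (2 * l * m - v0) ^ 2 / (4 * l) := by positivity
  linarith

private theorem prof_UPP (l P v : ℝ) (hl : 0 < l) :
    P * v - v ^ 2 / (4 * l) ≤ P * (2 * P * l) - (2 * P * l) ^ 2 / (4 * l) := by
  have h : (P * (2 * P * l) - (2 * P * l) ^ 2 / (4 * l)) - (P * v - v ^ 2 / (4 * l)) =
      (v - 2 * P * l) ^ 2 / (4 * l) := by
    field_simp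
    ring
  have h2 : 0 ≤ (v - 2 * P * l) ^ 2 / (4 * l) := by positivity
  linarith

theorem pf_UPP (hBND : T_BND) (hDIFF : T_DIFF) (hDETU : Pool.Agent.H25.EE.T_DETU)
    (hGAM : Pool.Agent.H25.EE.T_GAM) (hCARD : Pool.Agent.H51.EI.T_CARD) (hEVD : T_EVD) :
    T_UPP := by
  intro O X0 π ε hε
  obtain ⟨CB, hCB0, hCB⟩ := hBND O X0 π
  obtain ⟨CD, hCD0, JD, hCD⟩ := hDIFF O X0 π
  have hq1 : 1 ≤ qq π := Nat.one_le_pow _ _ π.hr
  have hqR : (1 : ℝ) ≤ qq π := by exact_mod_cast hq1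
  have hrho : 1 ≤ rho π := by
    unfold rho
    have : 0 ≤ (‖ev (π.x 0) X0‖ + ‖ev (π.x 1) X0‖) / ‖ev π.B X0‖ := by positivity
    have : 0 ≤ (‖ev (π.y 0) X0‖ + ‖ev (π.y 1) X0‖) / ‖ev π.A X0‖ := by positivity
    linarith
  obtain ⟨C1, J1, hG⟩ := hGAM 0 (rho π) le_rfl hrho
  obtain ⟨hc1, -, hc3, -, -⟩ := hCARD (qq π) hq1
  obtain ⟨J2, hJ2⟩ := exists_nat_ge (Real.exp ((14 + CD + 2 * CB + |C1|) / ε))
  refine ⟨max (max (max J1 J2) JD) 3, fun J hJ u w hval g v hv x hx => ?_⟩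
  have hJJ1 : J1 ≤ J := le_trans (le_trans (le_trans (le_max_left _ _) (le_max_left _ _))
    (le_max_left _ _)) hJ
  have hJJ2 : J2 ≤ J := le_trans (le_trans (le_trans (le_max_right _ _) (le_max_left _ _))
    (le_max_left _ _)) hJ
  have hJJD : JD ≤ J := le_trans (le_trans (le_max_right _ _) (le_max_left _ _)) hJ
  have h3J : 3 ≤ J := le_trans (le_max_right _ _) hJ
  have hJr : (3 : ℝ) ≤ J := by exact_mod_cast h3J
  have hJ0 : (0 : ℝ) < J := by linarith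
  have hl0 : 0 < Real.log J := Real.log_pos (by linarith)
  have hlJ : Real.log J ≤ J := by
    have := Real.log_le_sub_one_of_pos hJ0
    linarith
  have hlK : 14 + CD + 2 * CB + |C1| ≤ ε * Real.log J := by
    have h : (14 + CD + 2 * CB + |C1|) / ε ≤ Real.log J := by
      rw [Real.le_log_iff_exp_le hJ0]
      exact hJ2.trans (by exact_mod_cast hJJ2)
    rw [div_le_iff₀ hε] at h
    linarith
  obtain ⟨hsum, hprod⟩ := hG J hJJ1
  have hLP := hc1 J (by omega)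
  have hPL := hc3 J (by omega)
  set l : ℝ := Real.log (J : ℝ) with hldef
  set P : ℝ := 2 / 1125 * (J : ℝ) ^ 4 / (qq π : ℝ) with hPdef
  set v0 : ℝ := min v (2 * P * l) with hv0def
  have hP0 : 0 ≤ P := by positivity
  have hP4 : 2 * P ≤ (J : ℝ) ^ 4 := by
    have h0 : (0 : ℝ) ≤ (J : ℝ) ^ 4 := by positivity
    have h1 : P ≤ 2 / 1125 * (J : ℝ) ^ 4 := div_le_self (by positivity) hqR
    linarith
  have hv00 : 0 ≤ v0 := le_min hv (by positivity)
  have hv0v : v0 ≤ v := min_le_left _ _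
  have hv0V : v0 ≤ 2 * P * l := min_le_right _ _
  have hv04 : v0 ≤ (J : ℝ) ^ 4 * l := hv0V.trans (mul_le_mul_of_nonneg_right hP4 hl0.le)
  -- the profile
  have hprof : P * v - v ^ 2 / (4 * l) ≤ P * v0 - v0 ^ 2 / (4 * l) := by
    rcases le_total v (2 * P * l) with h | h
    · rw [hv0def, min_eq_left h]
    · rw [hv0def, min_eq_right h]
      exact prof_UPP l P v hl0
  have hx1 : ‖x - X0‖ ≤ Real.exp (-v0) := hx.trans (Real.exp_le_exp.mpr (by linarith))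
  have hx2 : ‖x - X0‖ ≤ 1 := hx1.trans (by
    rw [← Real.exp_zero]
    exact Real.exp_le_exp.mpr (by linarith))
  have hx3 : ‖x - X0‖ + Real.exp (-((J : ℝ) ^ 4 * l)) ≤ Real.exp (-v0 + 1) := by
    have h1 : Real.exp (-((J : ℝ) ^ 4 * l)) ≤ Real.exp (-v0) :=
      Real.exp_le_exp.mpr (by linarith)
    have h2 : (2 : ℝ) ≤ Real.exp 1 := by
      have := Real.add_one_le_exp (1 : ℝ)
      linarith
    rw [Real.exp_add]
    have h3 := mul_le_mul_of_nonneg_left h2 (Real.exp_pos (-v0)).le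
    linarith
  have hcard : Fintype.card {a // a ∈ Ix (t0 π) J} = (Ix (t0 π) J).card := Fintype.card_coe _
  change ((Ix (t0 π) J).card : ℝ) ≤ P at hLP
  change P - 10 * (J : ℝ) ^ 2 ≤ (Ix (t0 π) J).card at hPL
  set L : ℕ := (Ix (t0 π) J).card with hLdef
  have hL4 : L ≤ J ^ 4 := by
    have h1 : (L : ℝ) ≤ ((J ^ 4 : ℕ) : ℝ) := by
      push_cast
      linarith
    exact_mod_cast h1
  rw [hEVD O X0 π u w J g x]
  have hval' := fun (a : {a // a ∈ Ix (t0 π) J}) (b : {b // b ∈ Ix (t1 π) J}) =>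
    hCD J hJJD u w hval a.1 a.2 b.1 b.2
  choose S hS1 hS2 using hval'
  have hgt : ∀ n : ℕ, (Real.exp (CB * (J : ℝ) ^ 2 * l) * ((n : ℝ) + 1) ^ (J ^ 2) *
      (rho π * J) ^ n) * (Real.exp (CB * (J : ℝ) ^ 2 * l) * ((n : ℝ) + 1) ^ (J ^ 2) *
      (rho π * J) ^ n / n.factorial) = Real.exp (2 * CB * (J : ℝ) ^ 2 * l) *
        gt 0 (rho π) J n := by
    intro n
    unfold gt
    rw [show 2 * CB * (J : ℝ) ^ 2 * l = CB * (J : ℝ) ^ 2 * l + CB * (J : ℝ) ^ 2 * l by ring,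
      Real.exp_add, zero_mul, Real.exp_zero]
    ring
  have hdet := hDETU {a // a ∈ Ix (t0 π) J} (fun a n => al π a.1 n)
    (fun a n => be π u w J (g a).1 n)
    (fun a a' => S a (g a')) (fun a a' => ev (mm π u w J a.1 (g a').1) x)
    (fun n => Real.exp (CB * (J : ℝ) ^ 2 * l) * ((n : ℝ) + 1) ^ (J ^ 2) * (rho π * J) ^ n)
    (fun n => Real.exp (CB * (J : ℝ) ^ 2 * l) * ((n : ℝ) + 1) ^ (J ^ 2) * (rho π * J) ^ n /
      n.factorial)
    (Real.exp (-v0 + 1 + CD * (J : ℝ) ^ 2 * l))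
    (Real.exp (-((L : ℝ) * v0 - v0 ^ 2 / (4 * l)) + (CD * (J : ℝ) ^ 2 * l + 1) * L +
      2 * CB * (J : ℝ) ^ 2 * l * L + C1 * (J : ℝ) ^ 8))
    (fun k => Real.exp (2 * CB * (J : ℝ) ^ 2 * l) * ∑' n, gt 0 (rho π) J (n + k))
    (fun a n => (hCB J (by omega) u w hval).1 a.1 a.2 |>.2 n)
    (fun a n => (hCB J (by omega) u w hval).2 (g a).1 (g a).2 |>.2 n)
    (fun n => by positivity) (fun n => by positivity)
    ((hsum.mul_left (Real.exp (2 * CB * (J : ℝ) ^ 2 * l))).congr fun n => (hgt n).symm)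
    (fun k => by
      apply le_of_eq
      rw [← tsum_mul_left]
      exact tsum_congr fun n => hgt (n + k))
    (Real.exp_pos _).le
    (fun a a' => hS1 a (g a'))
    (fun a a' => by
      refine (hS2 a (g a') x hx2).trans ?_
      rw [Real.exp_add (-v0 + 1)]
      gcongr)
    (fun r hr => by
      rw [hcard] at hr ⊢
      have h1 := hprod (L - r) ((Nat.sub_le _ _).trans hL4)
      have h2 : Real.exp (-v0 + 1 + CD * (J : ℝ) ^ 2 * l) ^ r =
          Real.exp ((r : ℝ) * (-v0 + 1 + CD * (J : ℝ) ^ 2 * l)) := by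
        rw [← Real.exp_nat_mul]
      have h2' : Real.exp (2 * CB * (J : ℝ) ^ 2 * l) ^ (L - r) =
          Real.exp (((L - r : ℕ) : ℝ) * (2 * CB * (J : ℝ) ^ 2 * l)) := by
        rw [← Real.exp_nat_mul]
      rw [h2, Finset.prod_mul_distrib, Finset.prod_const, Finset.card_range, h2', ← mul_assoc,
        ← Real.exp_add]
      refine (mul_le_mul_of_nonneg_left h1 (Real.exp_pos _).le).trans ?_
      rw [← Real.exp_add]
      apply Real.exp_le_exp.mpr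
      have h3 := amgm_UPP l ((L : ℝ) - r) v0 hl0
      have hrL : (r : ℝ) ≤ L := by exact_mod_cast hr
      rw [Nat.cast_sub hr]
      have h4 : (r : ℝ) * (CD * (J : ℝ) ^ 2 * l + 1) ≤ (CD * (J : ℝ) ^ 2 * l + 1) * L := by
        rw [mul_comm]
        exact mul_le_mul_of_nonneg_left hrL (by positivity)
      have h5 : ((L : ℝ) - r) * (2 * CB * (J : ℝ) ^ 2 * l) ≤ 2 * CB * (J : ℝ) ^ 2 * l * L := by
        rw [mul_comm]
        refine mul_le_mul_of_nonneg_left ?_ (by positivity)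
        have : (0 : ℝ) ≤ r := Nat.cast_nonneg r
        linarith
      nlinarith [h3, h4, h5])
  refine hdet.trans ?_
  rw [hcard]
  refine (mul_le_mul_of_nonneg_right (two_pow_fact L) (Real.exp_pos _).le).trans ?_
  rw [← Real.exp_add]
  apply Real.exp_le_exp.mpr
  have hnum := num_UPP (J : ℝ) l L P v0 CD CB C1 ε (by linarith) hl0 hlJ (Nat.cast_nonneg _) hLP
    hP4 hPL hv00 hv0V hCD0 hCB0 hlK
  unfold phq
  rw [← hldef, ← hPdef]
  nlinarith [hnum, hprof]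

end Pool.Agent.H64.EM.UPP
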