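import Pool.Agent.H92.EM.TA
import Pool.Agent.H69.EQ.TL

/-!
# The bump
-/

set_option autoImplicit false

open MeasureTheory Filter Topology Set Pool.Agent.H92.EQ Pool.Agent.H92.EM
open scoped ContDiff

namespace Pool.Agent.H64.EM

/-- the derivative of the transition -/
noncomputable def dS (s : ℝ) : ℝ := deriv Real.smoothTransition s

theorem dS_smooth : ContDiff ℝ ∞ dS := by
  have h : ContDiff ℝ ∞ Real.smoothTransition := Real.smoothTransition.contDiff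
  exact (contDiff_infty_iff_deriv.1 h).2

theorem sS_deriv (s : ℝ) : HasDerivAt Real.smoothTransition (dS s) s := by
  have h : ContDiff ℝ ∞ Real.smoothTransition := Real.smoothTransition.contDiff
  exact ((contDiff_infty_iff_deriv.1 h).1 s).hasDerivAt

theorem dS_nonneg (s : ℝ) : 0 ≤ dS s := Real.smoothTransition.monotone.deriv_nonneg

theorem dS_zero {s : ℝ} (hs : 1 ≤ s) : dS s = 0 := by
  have h : IsLocalMax Real.smoothTransition s := by
    refine Filter.Eventually.of_forall fun y => ?_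
    show Real.smoothTransition y ≤ Real.smoothTransition s
    rw [Real.smoothTransition.one_of_one_le hs]
    exact Real.smoothTransition.le_one y
  exact h.deriv_eq_zero

theorem dS_bdd : ∃ C : ℝ, 0 < C ∧ ∀ s, 0 ≤ s → dS s ≤ C := by
  obtain ⟨C, hC⟩ := isCompact_Icc.exists_bound_of_continuousOn
    (s := Icc (0 : ℝ) 1) (f := dS) dS_smooth.continuous.continuousOn
  refine ⟨|C| + 1, by positivity, fun s hs => ?_⟩
  rcases le_or_gt s 1 with h | h
  · have h1 := hC s ⟨hs, h⟩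
    rw [Real.norm_eq_abs] at h1
    have h2 := le_abs_self (dS s)
    have h3 := le_abs_self C
    linarith
  · rw [dS_zero h.le]
    positivity

/-- the transition divided by the variable -/
noncomputable def gS (s : ℝ) : ℝ := s⁻¹ * Real.smoothTransition s

theorem gS_smooth : ContDiff ℝ ∞ gS := by
  have h1 : ContDiff ℝ ∞ (fun x : ℝ =>
      (Polynomial.X : Polynomial ℝ).eval x⁻¹ * expNegInvGlue x) :=
    expNegInvGlue.contDiff_polynomial_eval_inv_mul Polynomial.X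
  have h2 : ContDiff ℝ ∞ (fun x : ℝ => expNegInvGlue x + expNegInvGlue (1 - x)) :=
    expNegInvGlue.contDiff.add (expNegInvGlue.contDiff.comp (contDiff_const.sub contDiff_id))
  have h3 := h1.div h2 (fun x => (Real.smoothTransition.pos_denom x).ne')
  have e : gS = (fun x : ℝ => (Polynomial.X : Polynomial ℝ).eval x⁻¹ * expNegInvGlue x) /
      (fun x : ℝ => expNegInvGlue x + expNegInvGlue (1 - x)) := by
    funext x
    simp only [Pi.div_apply]
    unfold gS Real.smoothTransition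
    rw [Polynomial.eval_X]
    ring
  rw [e]
  exact h3

theorem s_gS (s : ℝ) : s * gS s = Real.smoothTransition s := by
  unfold gS
  rcases eq_or_ne s 0 with rfl | h
  · rw [zero_mul, Real.smoothTransition.zero]
  · rw [← mul_assoc, mul_inv_cancel₀ h, one_mul]

theorem gS_deriv (s : ℝ) : HasDerivAt gS (deriv gS s) s :=
  ((contDiff_infty_iff_deriv.1 gS_smooth).1 s).hasDerivAt

theorem gS_id (s : ℝ) : gS s + s * deriv gS s = dS s := by
  have h1 : HasDerivAt (fun s => s * gS s) (1 * gS s + s * deriv gS s) s :=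
    (hasDerivAt_id s).mul (gS_deriv s)
  have h2 : (fun s => s * gS s) = Real.smoothTransition := funext s_gS
  rw [h2] at h1
  have h3 := h1.unique (sS_deriv s)
  linarith

theorem gS_nonneg {s : ℝ} (hs : 0 ≤ s) : 0 ≤ gS s :=
  mul_nonneg (inv_nonneg.2 hs) (Real.smoothTransition.nonneg s)

theorem gS_le {s : ℝ} (hs : 0 ≤ s) : gS s ≤ s⁻¹ := by
  unfold gS
  have h1 := Real.smoothTransition.le_one s
  have h2 := inv_nonneg.2 hs
  nlinarith

/-- the potential -/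
noncomputable def FS (s : ℝ) : ℝ := (1 / 2) * ∫ r in (1 : ℝ)..s, gS r

theorem FS_deriv (s : ℝ) : HasDerivAt FS (gS s / 2) s := by
  have h1 := intervalIntegral.integral_hasDerivAt_right
    (gS_smooth.continuous.intervalIntegrable 1 s)
    gS_smooth.continuous.stronglyMeasurable.stronglyMeasurableAtFilter
    gS_smooth.continuous.continuousAt
  have h2 := h1.const_mul (1 / 2 : ℝ)
  have h3 : gS s / 2 = 1 / 2 * gS s := by ring
  rw [h3]
  exact h2

theorem FS_smooth : ContDiff ℝ ∞ FS := by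
  rw [contDiff_infty_iff_deriv]
  refine ⟨fun s => (FS_deriv s).differentiableAt, ?_⟩
  have h : deriv FS = fun s => gS s / 2 := funext fun s => (FS_deriv s).deriv
  rw [h]
  exact gS_smooth.div_const 2

theorem FS_sub (a b : ℝ) : FS b - FS a = (1 / 2) * ∫ r in a..b, gS r := by
  unfold FS
  rw [← mul_sub, intervalIntegral.integral_interval_sub_left
    (gS_smooth.continuous.intervalIntegrable _ _) (gS_smooth.continuous.intervalIntegrable _ _)]

theorem FS_mono {a b : ℝ} (ha : 0 ≤ a) (hab : a ≤ b) : 0 ≤ FS b - FS a := by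
  rw [FS_sub]
  have h : 0 ≤ ∫ r in a..b, gS r :=
    intervalIntegral.integral_nonneg hab (fun u hu => gS_nonneg (ha.trans hu.1))
  linarith

theorem FS_le {a b : ℝ} (ha : 0 < a) (hab : a ≤ b) :
    FS b - FS a ≤ (1 / 2) * (Real.log b - Real.log a) := by
  rw [FS_sub]
  have hb : 0 < b := ha.trans_le hab
  have h1 : ∫ r in a..b, gS r ≤ ∫ r in a..b, r⁻¹ := by
    refine intervalIntegral.integral_mono_on hab (gS_smooth.continuous.intervalIntegrable _ _)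
      ?_ (fun u hu => gS_le (ha.le.trans hu.1))
    exact intervalIntegral.intervalIntegrable_inv (fun x hx => by
      rw [uIcc_of_le hab] at hx
      exact (ha.trans_le hx.1).ne') continuousOn_id
  rw [integral_inv_of_pos ha hb, Real.log_div hb.ne' ha.ne'] at h1
  linarith

theorem FS_ge_one {b : ℝ} (hb : 1 ≤ b) : FS b = (1 / 2) * Real.log b := by
  unfold FS
  have h1 : ∫ r in (1 : ℝ)..b, gS r = ∫ r in (1 : ℝ)..b, r⁻¹ := by
    refine intervalIntegral.integral_congr fun u hu => ?_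
    rw [uIcc_of_le hb] at hu
    show gS u = u⁻¹
    unfold gS
    rw [Real.smoothTransition.one_of_one_le hu.1, mul_one]
  rw [h1, integral_inv_of_pos one_pos (by linarith), div_one]

theorem FS_one : FS 1 = 0 := by
  rw [FS_ge_one le_rfl, Real.log_one, mul_zero]

theorem FS_nonpos {s : ℝ} (h0 : 0 ≤ s) (h1 : s ≤ 1) : FS s ≤ 0 := by
  have h := FS_mono h0 h1
  rw [FS_one] at h
  linarith

theorem FS_log {s : ℝ} (h0 : 0 < s) : (1 / 2) * Real.log s ≤ FS s := by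
  rcases le_or_gt s 1 with h | h
  · have h1 := FS_le h0 h
    rw [FS_one, Real.log_one] at h1
    linarith
  · rw [FS_ge_one h.le]

/-! ### Functions of `c ‖t‖²` -/

theorem n2_fd (c : ℝ) (t : ℂ) :
    HasFDerivAt (fun t : ℂ => c * ‖t‖ ^ 2) (c • (2 • innerSL ℝ t)) t :=
  (hasStrictFDerivAt_norm_sq t).hasFDerivAt.const_mul c

theorem U_fd (c : ℝ) (t : ℂ) : HasFDerivAt (fun t : ℂ => FS (c * ‖t‖ ^ 2))
    ((gS (c * ‖t‖ ^ 2) / 2) • (c • (2 • innerSL ℝ t))) t :=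
  (FS_deriv _).comp_hasFDerivAt t (n2_fd c t)

theorem inner_fd (v t : ℂ) : HasFDerivAt (fun t : ℂ => inner ℝ t v) (innerSL ℝ v) t := by
  have h := (innerSL ℝ v).hasFDerivAt (x := t)
  have h3 : (fun t : ℂ => inner ℝ t v) = ⇑(innerSL ℝ v) := by
    funext t
    rw [innerSL_apply_apply]
    exact real_inner_comm _ _
  rw [h3]
  exact h

theorem U_fd2 (c : ℝ) (v t : ℂ) : HasFDerivAt
    (fun t : ℂ => gS (c * ‖t‖ ^ 2) * (c * inner ℝ t v))
    ((gS (c * ‖t‖ ^ 2)) • (c • innerSL ℝ v) +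
      (c * inner ℝ t v) • (deriv gS (c * ‖t‖ ^ 2) • (c • (2 • innerSL ℝ t)))) t := by
  have h1 : HasFDerivAt (fun t : ℂ => gS (c * ‖t‖ ^ 2))
      (deriv gS (c * ‖t‖ ^ 2) • (c • (2 • innerSL ℝ t))) t :=
    (gS_deriv _).comp_hasFDerivAt t (n2_fd c t)
  have h2 : HasFDerivAt (fun t : ℂ => c * inner ℝ t v) (c • innerSL ℝ v) t :=
    (inner_fd v t).const_mul c
  exact h1.mul h2

/-- the difference of the potentials -/
noncomputable def psi (a c c' l : ℝ) (t : ℂ) : ℝ :=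
  a * (FS (c' * ‖t‖ ^ 2) - FS (c * ‖t‖ ^ 2) + l)

theorem psi_fd (a c c' l : ℝ) (t v : ℂ) : fderiv ℝ (psi a c c' l) t v =
    a * (gS (c' * ‖t‖ ^ 2) * (c' * inner ℝ t v) - gS (c * ‖t‖ ^ 2) * (c * inner ℝ t v)) := by
  have h : HasFDerivAt (psi a c c' l) _ t :=
    (((U_fd c' t).sub (U_fd c t)).add_const l).const_mul a
  rw [h.fderiv]
  simp only [_root_.sub_apply, _root_.smul_apply, smul_eq_mul, innerSL_apply_apply, nsmul_eq_mul]
  push_cast
  ring

theorem psi_fd2 (a c c' l : ℝ) (t v : ℂ) :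
    fderiv ℝ (fun s => fderiv ℝ (psi a c c' l) s v) t v =
    a * ((gS (c' * ‖t‖ ^ 2) * (c' * inner ℝ v v) +
      (c' * inner ℝ t v) * (deriv gS (c' * ‖t‖ ^ 2) * (c' * (2 * inner ℝ t v)))) -
      (gS (c * ‖t‖ ^ 2) * (c * inner ℝ v v) +
      (c * inner ℝ t v) * (deriv gS (c * ‖t‖ ^ 2) * (c * (2 * inner ℝ t v))))) := by
  have h0 : (fun s => fderiv ℝ (psi a c c' l) s v) = fun t =>
      a * (gS (c' * ‖t‖ ^ 2) * (c' * inner ℝ t v) - gS (c * ‖t‖ ^ 2) * (c * inner ℝ t v)) :=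
    funext fun s => psi_fd a c c' l s v
  rw [h0]
  have h : HasFDerivAt (fun t =>
      a * (gS (c' * ‖t‖ ^ 2) * (c' * inner ℝ t v) - gS (c * ‖t‖ ^ 2) * (c * inner ℝ t v))) _ t :=
    ((U_fd2 c' v t).sub (U_fd2 c v t)).const_mul a
  rw [h.fderiv]
  simp only [_root_.sub_apply, _root_.add_apply, _root_.smul_apply, smul_eq_mul,
    innerSL_apply_apply, nsmul_eq_mul]
  push_cast
  ring

theorem psi_lapl (a c c' l : ℝ) (t : ℂ) : lapl (psi a c c' l) t =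
    a / 2 * (c' * dS (c' * ‖t‖ ^ 2) - c * dS (c * ‖t‖ ^ 2)) := by
  unfold lapl
  rw [psi_fd2, psi_fd2]
  have h4 : inner ℝ (1 : ℂ) (1 : ℂ) = 1 := by
    rw [Pool.Agent.H69.EQ.inner_one]; simp
  have h5 : inner ℝ Complex.I Complex.I = 1 := by
    rw [Pool.Agent.H69.EQ.inner_I]; simp
  rw [h4, h5, Pool.Agent.H69.EQ.inner_one, Pool.Agent.H69.EQ.inner_I]
  rw [← gS_id (c' * ‖t‖ ^ 2), ← gS_id (c * ‖t‖ ^ 2)]
  have h6 : ‖t‖ ^ 2 = t.re * t.re + t.im * t.im := by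
    rw [Complex.sq_norm, Complex.normSq_apply]
  set g1 := gS (c' * ‖t‖ ^ 2)
  set g2 := gS (c * ‖t‖ ^ 2)
  set e1 := deriv gS (c' * ‖t‖ ^ 2)
  set e2 := deriv gS (c * ‖t‖ ^ 2)
  rw [h6]
  ring

theorem n2_smooth (c : ℝ) : ContDiff ℝ ∞ (fun t : ℂ => c * ‖t‖ ^ 2) :=
  contDiff_const.mul (contDiff_norm_sq ℝ)

theorem psi_smooth (a c c' l : ℝ) : ContDiff ℝ ∞ (psi a c c' l) :=
  contDiff_const.mul (((FS_smooth.comp (n2_smooth c')).sub (FS_smooth.comp (n2_smooth c))).add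
    contDiff_const)

/-! ### The bumps -/

theorem bs_eq {θ : ℝ} (hθ : 0 < θ) (t : ℂ) :
    bs θ t = (θ ^ 2)⁻¹ * (Real.pi⁻¹ * dS ((θ ^ 2)⁻¹ * ‖t‖ ^ 2)) := by
  unfold bs bu dS
  have h : ‖(((θ⁻¹ : ℝ) : ℂ) * t)‖ ^ 2 = (θ ^ 2)⁻¹ * ‖t‖ ^ 2 := by
    rw [norm_mul, Complex.norm_real, Real.norm_eq_abs, abs_of_pos (inv_pos.2 hθ), mul_pow,
      inv_pow]
  rw [h]

theorem one_le_s {θ : ℝ} (hθ : 0 < θ) {t : ℂ} (h : θ ≤ ‖t‖) : 1 ≤ (θ ^ 2)⁻¹ * ‖t‖ ^ 2 := by
  rw [inv_mul_eq_div, one_le_div (by positivity)]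
  gcongr

theorem s_lt_one {θ : ℝ} (hθ : 0 < θ) {t : ℂ} (h : ‖t‖ < θ) : (θ ^ 2)⁻¹ * ‖t‖ ^ 2 ≤ 1 := by
  rw [inv_mul_eq_div, div_le_one (by positivity)]
  gcongr

theorem log_s {θ : ℝ} (hθ : 0 < θ) {t : ℂ} (ht : t ≠ 0) :
    (1 / 2) * Real.log ((θ ^ 2)⁻¹ * ‖t‖ ^ 2) = Real.log ‖t‖ - Real.log θ := by
  have h1 : 0 < ‖t‖ := norm_pos_iff.2 ht
  rw [Real.log_mul (by positivity) (by positivity), Real.log_inv, Real.log_pow, Real.log_pow]
  push_cast
  ring

theorem int_radial (h : ℝ → ℝ) :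
    ∫ g : ℂ, h (‖g‖ ^ 2) = Real.pi * ∫ u in Set.Ioi (0 : ℝ), h u := by
  have h1 := MeasureTheory.integral_fun_norm_addHaar (E := ℂ) (volume : Measure ℂ)
    (fun y : ℝ => h (y ^ 2))
  rw [h1, Complex.finrank_real_complex]
  have hv : (volume : Measure ℂ).real (Metric.ball (0 : ℂ) 1) = Real.pi := by
    rw [Measure.real, Complex.volume_ball]
    simp [NNReal.coe_real_pi]
  rw [hv]
  have h2 := MeasureTheory.integral_comp_rpow_Ioi_of_pos (g := h) (p := 2) two_pos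
  have h3 : ∫ y in Set.Ioi (0 : ℝ), y ^ (2 - 1) • h (y ^ 2) =
      (1 / 2) * ∫ u in Set.Ioi (0 : ℝ), h u := by
    rw [← h2, ← integral_const_mul]
    refine setIntegral_congr_fun measurableSet_Ioi fun y hy => ?_
    have e1 : (2 : ℝ) - 1 = 1 := by norm_num
    have e2 : y ^ (2 : ℝ) = y ^ 2 := by
      exact_mod_cast Real.rpow_natCast y 2
    simp only [e1, Real.rpow_one, e2, smul_eq_mul]
    ring
  rw [h3]
  simp only [nsmul_eq_mul, smul_eq_mul]
  push_cast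
  ring

theorem bs_smooth {θ : ℝ} (hθ : 0 < θ) : ContDiff ℝ ∞ (bs θ) := by
  have h : bs θ = fun t => (θ ^ 2)⁻¹ * (Real.pi⁻¹ * dS ((θ ^ 2)⁻¹ * ‖t‖ ^ 2)) :=
    funext fun t => bs_eq hθ t
  rw [h]
  exact contDiff_const.mul (contDiff_const.mul (dS_smooth.comp (n2_smooth _)))

theorem bs_zero {θ : ℝ} (hθ : 0 < θ) {t : ℂ} (h : θ ≤ ‖t‖) : bs θ t = 0 := by
  rw [bs_eq hθ, dS_zero (one_le_s hθ h), mul_zero, mul_zero]

theorem bs_int {θ : ℝ} (hθ : 0 < θ) : Integrable (bs θ) := by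
  refine (bs_smooth hθ).continuous.integrable_of_hasCompactSupport ?_
  refine HasCompactSupport.of_support_subset_isCompact (isCompact_closedBall (0 : ℂ) θ) ?_
  intro t ht
  rw [mem_closedBall_zero_iff]
  by_contra hc
  exact ht (bs_zero hθ (not_le.1 hc).le)

theorem bs_mass {θ : ℝ} (hθ : 0 < θ) : ∫ t, bs θ t = 1 := by
  have h1 : ∫ t, bs θ t = ∫ t : ℂ, (fun u : ℝ => (θ ^ 2)⁻¹ * (Real.pi⁻¹ * dS ((θ ^ 2)⁻¹ * u)))
      (‖t‖ ^ 2) := integral_congr_ae (Filter.Eventually.of_forall fun t => bs_eq hθ t)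
  rw [h1]
  refine (int_radial (fun u : ℝ => (θ ^ 2)⁻¹ * (Real.pi⁻¹ * dS ((θ ^ 2)⁻¹ * u)))).trans ?_
  have h2 : ∀ u : ℝ, HasDerivAt (fun u : ℝ => Real.pi⁻¹ *
      Real.smoothTransition ((θ ^ 2)⁻¹ * u)) ((θ ^ 2)⁻¹ * (Real.pi⁻¹ * dS ((θ ^ 2)⁻¹ * u))) u := by
    intro u
    have h3 : HasDerivAt (fun u : ℝ => (θ ^ 2)⁻¹ * u) ((θ ^ 2)⁻¹) u := by
      simpa using (hasDerivAt_id u).const_mul ((θ ^ 2)⁻¹)
    have h4 := ((sS_deriv ((θ ^ 2)⁻¹ * u)).comp u h3).const_mul Real.pi⁻¹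
    refine h4.congr_deriv ?_
    ring
  have h5 : Tendsto (fun u : ℝ => Real.pi⁻¹ * Real.smoothTransition ((θ ^ 2)⁻¹ * u)) atTop
      (𝓝 (Real.pi⁻¹ * 1)) := by
    refine tendsto_const_nhds.congr' ?_
    filter_upwards [eventually_ge_atTop (θ ^ 2)] with u hu
    rw [Real.smoothTransition.one_of_one_le]
    rw [inv_mul_eq_div, one_le_div (by positivity)]
    exact hu
  have h6 := integral_Ioi_of_hasDerivAt_of_nonneg' (a := (0 : ℝ)) (fun u _ => h2 u)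
    (fun u _ => mul_nonneg (by positivity) (mul_nonneg (inv_nonneg.2 Real.pi_pos.le)
      (dS_nonneg _))) h5
  rw [h6, mul_zero, Real.smoothTransition.zero]
  field_simp
  ring

theorem pf_MBU : T_MBU := by
  obtain ⟨C, hC, hCb⟩ := dS_bdd
  refine ⟨C, hC, ?_, ?_⟩
  · intro θ hθ
    refine ⟨bs_smooth hθ, fun t => ?_, fun t => ?_, fun t ht => bs_zero hθ ht, bs_int hθ,
      bs_mass hθ⟩
    · rw [bs_eq hθ]
      exact mul_nonneg (by positivity) (mul_nonneg (inv_nonneg.2 Real.pi_pos.le) (dS_nonneg _))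
    · rw [bs_eq hθ, div_eq_inv_mul]
      refine mul_le_mul_of_nonneg_left ?_ (by positivity)
      have h1 := hCb ((θ ^ 2)⁻¹ * ‖t‖ ^ 2) (by positivity)
      have h2 : Real.pi⁻¹ ≤ 1 := inv_le_one_of_one_le₀ (by linarith [Real.pi_gt_three])
      have h3 := dS_nonneg ((θ ^ 2)⁻¹ * ‖t‖ ^ 2)
      calc Real.pi⁻¹ * dS ((θ ^ 2)⁻¹ * ‖t‖ ^ 2) ≤ 1 * dS ((θ ^ 2)⁻¹ * ‖t‖ ^ 2) :=
            mul_le_mul_of_nonneg_right h2 h3
        _ ≤ C := by linarith
  · intro θ θ' hθ hθ'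
    have hp' : 0 < θ' := hθ.trans_le hθ'
    have hpi := Real.pi_gt_three
    have h2pi : 2 / Real.pi ≤ 1 := by
      rw [div_le_one (by linarith)]
      linarith
    have h2pi0 : 0 ≤ 2 / Real.pi := by positivity
    have hlog : Real.log (θ' / θ) = Real.log θ' - Real.log θ := Real.log_div hp'.ne' hθ.ne'
    have hlog0 : 0 ≤ Real.log (θ' / θ) := Real.log_nonneg (by rwa [one_le_div hθ])
    have hcc : (θ' ^ 2)⁻¹ ≤ (θ ^ 2)⁻¹ := by gcongr
    have hss : ∀ t : ℂ, (θ' ^ 2)⁻¹ * ‖t‖ ^ 2 ≤ (θ ^ 2)⁻¹ * ‖t‖ ^ 2 := fun t =>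
      mul_le_mul_of_nonneg_right hcc (by positivity)
    have hzero : ∀ t : ℂ, θ' ≤ ‖t‖ →
        psi (2 / Real.pi) (θ ^ 2)⁻¹ (θ' ^ 2)⁻¹ (Real.log (θ' / θ)) t = 0 := by
      intro t ht
      have ht0 : t ≠ 0 := by
        rintro rfl
        rw [norm_zero] at ht
        linarith
      unfold psi
      rw [FS_ge_one (one_le_s hp' ht), FS_ge_one (one_le_s hθ (hθ'.trans ht)), log_s hp' ht0,
        log_s hθ ht0, hlog]
      ring
    -- the difference of the potentials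
    have hmain : ∀ t : ℂ, 0 ≤ FS ((θ' ^ 2)⁻¹ * ‖t‖ ^ 2) - FS ((θ ^ 2)⁻¹ * ‖t‖ ^ 2) +
        Real.log (θ' / θ) ∧ FS ((θ' ^ 2)⁻¹ * ‖t‖ ^ 2) - FS ((θ ^ 2)⁻¹ * ‖t‖ ^ 2) +
        Real.log (θ' / θ) ≤ Real.log (θ' / θ) := by
      intro t
      have h1 := FS_mono (a := (θ' ^ 2)⁻¹ * ‖t‖ ^ 2) (by positivity) (hss t)
      refine ⟨?_, by linarith⟩
      rcases eq_or_ne t 0 with rfl | ht
      · have e : ‖(0 : ℂ)‖ ^ 2 = 0 := by simp
        rw [e, mul_zero, mul_zero, sub_self, zero_add]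
        exact hlog0
      · have hn : 0 < ‖t‖ := norm_pos_iff.2 ht
        have h2 := FS_le (a := (θ' ^ 2)⁻¹ * ‖t‖ ^ 2) (by positivity) (hss t)
        rw [mul_sub, log_s hθ ht, log_s hp' ht] at h2
        rw [hlog]
        linarith
    refine ⟨psi (2 / Real.pi) (θ ^ 2)⁻¹ (θ' ^ 2)⁻¹ (Real.log (θ' / θ)), psi_smooth _ _ _ _, ?_,
      hzero, ?_, ?_, ?_, ?_⟩
    · refine HasCompactSupport.of_support_subset_isCompact (isCompact_closedBall (0 : ℂ) θ') ?_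
      intro t ht
      rw [mem_closedBall_zero_iff]
      by_contra hc
      exact ht (hzero t (not_le.1 hc).le)
    · intro t
      rw [psi_lapl, bs_eq hθ, bs_eq hp']
      field_simp
    · intro t
      exact mul_nonneg h2pi0 (hmain t).1
    · intro t
      have h1 := hmain t
      calc psi (2 / Real.pi) (θ ^ 2)⁻¹ (θ' ^ 2)⁻¹ (Real.log (θ' / θ)) t ≤
            1 * (FS ((θ' ^ 2)⁻¹ * ‖t‖ ^ 2) - FS ((θ ^ 2)⁻¹ * ‖t‖ ^ 2) + Real.log (θ' / θ)) :=
            mul_le_mul_of_nonneg_right h2pi h1.1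
        _ ≤ C + Real.log (θ' / θ) := by linarith [h1.2]
    · intro t ht htl
      have h1 := hmain t
      have hn : 0 < ‖t‖ := norm_pos_iff.2 ht
      calc psi (2 / Real.pi) (θ ^ 2)⁻¹ (θ' ^ 2)⁻¹ (Real.log (θ' / θ)) t ≤
            1 * (FS ((θ' ^ 2)⁻¹ * ‖t‖ ^ 2) - FS ((θ ^ 2)⁻¹ * ‖t‖ ^ 2) + Real.log (θ' / θ)) :=
            mul_le_mul_of_nonneg_right h2pi h1.1
        _ ≤ Real.log (θ' / ‖t‖) := by
            have h2 := FS_nonpos (s := (θ' ^ 2)⁻¹ * ‖t‖ ^ 2) (by positivity) (s_lt_one hp' htl)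
            have h3 := FS_log (s := (θ ^ 2)⁻¹ * ‖t‖ ^ 2) (by positivity)
            rw [log_s hθ ht] at h3
            rw [hlog, Real.log_div hp'.ne' hn.ne']
            linarith

end Pool.Agent.H64.EM
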