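import Pool.Agent.H92.EM.TC
import Pool.Agent.H67.EHD.EPM

/-!
# Norms which are not divisible by the variables `X b`, `b < m`
-/

set_option autoImplicit false

open MeasureTheory Pool.Agent.H92.EQ Pool.Agent.H92.EM

namespace Pool.Agent.H64.EM

open Pool.Agent.H67.EHD (dvd_of_dvd_pow_mul hom_of_X_mul pos_of_X_mul)

theorem pf_MPM (hPNM : T_PNM) : T_MPM := by
  intro m k D e Φ h hD hΦ hh hne hX
  obtain ⟨h1, m1, h10, h1m, hdvd⟩ := hPNM (k + 1) D e Φ h (Nat.succ_pos k) hD hΦ.isH hh hne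
  induction m1 using Nat.strong_induction_on generalizing h1 with
  | _ m1 ih =>
    by_cases hd : ∃ b : Fin (k + 1), (b : ℕ) < m ∧
      (MvPolynomial.X b : MvPolynomial (Fin (k + 1)) ℂ) ∣ h1
    · obtain ⟨b, hb, g, rfl⟩ := hd
      have hg : g ≠ 0 := right_ne_zero_of_mul h10
      have h1' := pos_of_X_mul b hg h1m
      obtain ⟨n, rfl⟩ := Nat.exists_eq_add_of_le h1'
      have h1m' := h1m
      rw [Nat.add_comm 1 n] at h1m'
      have h3 := hom_of_X_mul b h1m'
      refine ih n (by omega) g hg h3 ?_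
      rw [map_mul, MvPolynomial.bind₁_X_right, hΦ.diag b hb] at hdvd
      exact dvd_of_dvd_pow_mul MvPolynomial.X_prime (hX b hb) D hdvd
    · exact ⟨h1, m1, h10, h1m, fun b hb hbd => hd ⟨b, hb, hbd⟩, hdvd⟩

end Pool.Agent.H64.EM
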